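import Pool.Agent.Helper79.SA.Goals

/-!
# MP_4137ca_lc, packet FUS: the fusion lemma
-/

open Set

noncomputable section

namespace SA.PkFUS

open SA

variable {K : Type}

theorem eqB_refl (n : ℕ) (x : Rl) : EqB n x x := fun _ _ => rfl

theorem eqB_symm {n : ℕ} {x y : Rl} (h : EqB n x y) : EqB n y x := fun i hi => (h i hi).symm

theorem eqB_trans {n : ℕ} {x y z : Rl} (h : EqB n x y) (h' : EqB n y z) : EqB n x z :=
  fun i hi => (h i hi).trans (h' i hi)

theorem eqB_mono {n m : ℕ} {x y : Rl} (hnm : n ≤ m) (h : EqB m x y) : EqB n x y :=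
  fun i hi => h i (lt_of_lt_of_le hi hnm)

/-- `h` moves no entry below `n` on `F`. -/
def Fx (F : Finset K) (n : ℕ) (h : Cnd K) : Prop := ∀ ξ ∈ F, ∀ x, EqB n ((h.m ξ).f x) x

theorem Fx.mul {F : Finset K} {n : ℕ} {g h : Cnd K} (hg : Fx F n g) (hh : Fx F n h) :
    Fx F n (g * h) := by
  intro ξ hξ x
  exact eqB_trans (hg ξ hξ ((h.m ξ).f x)) (hh ξ hξ x)

theorem Fx.one (F : Finset K) (n : ℕ) : Fx F n (1 : Cnd K) := fun _ _ x => eqB_refl n x

theorem comm (bx : G_BOX) {F : Finset K} {n : ℕ} {k : Cnd K} (hk : Fx F n k) (s : K → Rl) :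
    ∃ k', k * SA.box F n s = SA.box F n s * k' := by
  obtain ⟨_, h2, h3, _, _, _⟩ := bx K F n
  obtain ⟨k', hk'⟩ := h3 k s
  refine ⟨k', ?_⟩
  rw [hk', h2 (k.ac s) s (fun ξ hξ => hk ξ hξ (s ξ))]

theorem step (bx : G_BOX) {G : Set (Cnd K)} (hG : Adm G) {D : Set (Cnd K)}
    (hd : ∀ g, g ∈ G → ∃ h ∈ G, g * h ∈ D) (ho : ∀ g h, g ∈ D → g * h ∈ D)
    {g : Cnd K} (hg : g ∈ G) (F : Finset K) (n : ℕ) :
    ∃ h ∈ G, Fx F n h ∧ ∀ s, g * h * SA.box F n s ∈ D := by
  obtain ⟨h1, h2, h3, _, h5, h6⟩ := bx K F n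
  have key : ∀ T : Set (Cnd K), T.Finite →
      ∃ h ∈ G, Fx F n h ∧ ∀ s, SA.box F n s ∈ T → g * h * SA.box F n s ∈ D := by
    intro T hT
    induction T, hT using Set.Finite.induction_on with
    | empty => exact ⟨1, hG.one, Fx.one F n, fun s hs => absurd hs (notMem_empty _)⟩
    | @insert c0 T _ _ ih =>
      obtain ⟨h, hh, hF, hD⟩ := ih
      by_cases hc : ∃ s0, c0 = SA.box F n s0
      · obtain ⟨s0, rfl⟩ := hc
        obtain ⟨k, hk, hkD⟩ := hd (g * h * SA.box F n s0)
          (hG.mul _ _ (hG.mul _ _ hg hh) (hG.box F n s0))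
        have hA : Fx F n (am F n s0 k) := fun ξ hξ x => h6 s0 k ξ x hξ
        refine ⟨h * am F n s0 k, hG.mul _ _ hh (hG.am F n s0 k hk), hF.mul hA, ?_⟩
        intro s hs
        rcases (mem_insert_iff.mp hs) with hs | hs
        · rw [hs]
          have : g * (h * am F n s0 k) * SA.box F n s0 = g * h * SA.box F n s0 * k := by
            simp only [mul_assoc, h5]
          rw [this]
          exact hkD
        · obtain ⟨k', hk'⟩ := comm bx hA s
          have : g * (h * am F n s0 k) * SA.box F n s = g * h * SA.box F n s * k' := by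
            simp only [mul_assoc, hk']
          rw [this]
          exact ho _ _ (hD s hs)
      · refine ⟨h, hh, hF, ?_⟩
        intro s hs
        rcases (mem_insert_iff.mp hs) with hs | hs
        · exact absurd ⟨s, hs.symm⟩ hc
        · exact hD s hs
  obtain ⟨h, hh, hF, hD⟩ := key _ h1
  exact ⟨h, hh, hF, fun s => hD s ⟨s, rfl⟩⟩

/-! ### The limit in one coordinate -/

/-- The product of `h m, ..., h (m + j - 1)`. -/
def cc (h : ℕ → Mp) (m : ℕ) : ℕ → Mp
  | 0 => 1
  | j + 1 => cc h m j * h (m + j)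

theorem cc_succ' (h : ℕ → Mp) (m j : ℕ) : cc h m (j + 1) = h m * cc h (m + 1) j := by
  induction j with
  | zero => simp [cc]
  | succ j ih =>
    have e : m + (j + 1) = m + 1 + j := by omega
    show cc h m (j + 1) * h (m + (j + 1)) = h m * (cc h (m + 1) j * h (m + 1 + j))
    rw [ih, e, mul_assoc]

theorem lim1 (h : ℕ → Mp) (N0 : ℕ) (hN : ∀ m, N0 ≤ m → ∀ x, EqB m ((h m).f x) x) :
    ∃ k : ℕ → Mp, (∀ m, k m = h m * k (m + 1)) ∧ ∀ m, N0 ≤ m → ∀ x, EqB m ((k m).f x) x := by
  have e2 : ∀ m j x, N0 ≤ m + j → EqB (m + j) ((cc h m (j + 1)).f x) ((cc h m j).f x) := by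
    intro m j x hj
    exact (cc h m j).lip (m + j) _ _ (hN (m + j) hj x)
  have e3 : ∀ m j d x, N0 ≤ m + j → EqB (m + j) ((cc h m (j + d)).f x) ((cc h m j).f x) := by
    intro m j d x hj
    induction d with
    | zero => exact eqB_refl _ _
    | succ d ih =>
      have := e2 m (j + d) x (by omega)
      exact eqB_trans (eqB_mono (by omega) this) ih
  let kf : ℕ → Rl → Rl := fun m x i => (cc h m (i + 1 + N0)).f x i
  have e5 : ∀ m j x i, N0 ≤ m + j → i < m + j → (cc h m j).f x i = kf m x i := by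
    intro m j x i hj hi
    rcases le_total j (i + 1 + N0) with hle | hle
    · obtain ⟨d, hd⟩ := Nat.exists_eq_add_of_le hle
      have := e3 m j d x hj i hi
      rw [← hd] at this
      exact this.symm
    · obtain ⟨d, hd⟩ := Nat.exists_eq_add_of_le hle
      have := e3 m (i + 1 + N0) d x (by omega) i (by omega)
      rw [← hd] at this
      exact this
  have e6 : ∀ m x, kf m x = (h m).f (kf (m + 1) x) := by
    intro m x
    funext i
    have h1 := e5 m (i + 1 + N0 + 1) x i (by omega) (by omega)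
    rw [← h1, cc_succ', Mp.mul_f]
    refine (h m).lip (i + 1) _ _ ?_ i (Nat.lt_succ_self i)
    intro i' hi'
    exact e5 (m + 1) (i + 1 + N0) x i' (by omega) (by omega)
  have e7 : ∀ m j x, kf m x = (cc h m j).f (kf (m + j) x) := by
    intro m j x
    induction j with
    | zero => rfl
    | succ j ih =>
      rw [ih]
      show (cc h m j).f (kf (m + j) x) = (cc h m j).f ((h (m + j)).f (kf (m + (j + 1)) x))
      rw [e6 (m + j) x]
      rfl
  have e8 : ∀ m x, N0 ≤ m → EqB m (kf m x) x := by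
    intro m x hm i hi
    have := e5 m 0 x i (by omega) (by omega)
    rw [← this]
    rfl
  let k : ℕ → Mp := fun m =>
    { f := kf m
      lip := fun n x y hxy i hi => (cc h m (i + 1 + N0)).lip n x y hxy i hi
      inj := by
        intro x y hxy
        funext i
        have hx := e7 m (i + 1 + N0) x
        have hy := e7 m (i + 1 + N0) y
        have h1 : kf m x = kf m y := hxy
        rw [hx, hy] at h1
        have h2 := (cc h m (i + 1 + N0)).inj h1
        have h3 := e8 (m + (i + 1 + N0)) x (by omega) i (by omega)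
        have h4 := e8 (m + (i + 1 + N0)) y (by omega) i (by omega)
        rw [← h3, ← h4, h2] }
  refine ⟨k, ?_, ?_⟩
  · intro m
    refine Mp.ext ?_
    funext x
    exact e6 m x
  · intro m hm x
    exact e8 m x hm

/-! ### The sequence -/

section Seq

open Classical

variable (en : Cnd K → ℕ → K)

/-- The product of the list, the last element first. -/
def Pr : List (Cnd K) → Cnd K
  | [] => 1
  | a :: l => Pr l * a

/-- The finite set of coordinates. -/
def Fl (m : ℕ) : List (Cnd K) → Finset K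
  | [] => ∅
  | a :: l => (Finset.range m).image (en a) ∪ Fl m l

theorem Fl_mono {m m' : ℕ} (hm : m ≤ m') (l : List (Cnd K)) : Fl en m l ⊆ Fl en m' l := by
  induction l with
  | nil => exact Finset.Subset.refl _
  | cons a l ih =>
    refine Finset.union_subset_union ?_ ih
    exact Finset.image_subset_image (Finset.range_mono hm)

theorem mem_Fl {m : ℕ} {l : List (Cnd K)} {a : Cnd K} (ha : a ∈ l) {i : ℕ} (hi : i < m) :
    en a i ∈ Fl en m l := by
  induction l with
  | nil => simp at ha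
  | cons b l ih =>
    rcases List.mem_cons.mp ha with rfl | ha
    · exact Finset.mem_union_left _ (Finset.mem_image.mpr ⟨i, Finset.mem_range.mpr hi, rfl⟩)
    · exact Finset.mem_union_right _ (ih ha)

/-- The lists of the first `n` conditions, for a given choice `st`. -/
def Ls (st : ℕ → List (Cnd K) → Cnd K) : ℕ → List (Cnd K)
  | 0 => []
  | n + 1 => st n (Ls st n) :: Ls st n

theorem Ls_mem (st : ℕ → List (Cnd K) → Cnd K) (n m : ℕ) (h : n < m) :
    st n (Ls st n) ∈ Ls st m := by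
  induction m with
  | zero => omega
  | succ m ih =>
    rcases Nat.lt_succ_iff_lt_or_eq.mp h with h | rfl
    · exact List.mem_cons_of_mem _ (ih h)
    · exact List.mem_cons_self

theorem seq (bx : G_BOX) {G : Set (Cnd K)} (hG : Adm G) {D : ℕ → Set (Cnd K)}
    (hd : ∀ n g, g ∈ G → ∃ h ∈ G, g * h ∈ D n) (ho : ∀ n g h, g ∈ D n → g * h ∈ D n)
    (hen : ∀ (c : Cnd K) (ξ : K), c.m ξ ≠ 1 → ∃ i, en c i = ξ) :
    ∃ (h : ℕ → Cnd K) (F : ℕ → Finset K) (P : ℕ → Cnd K), P 0 = 1 ∧
      (∀ n, P (n + 1) = P n * h n) ∧ (∀ n, F n ⊆ F (n + 1)) ∧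
      (∀ n ξ, (h n).m ξ ≠ 1 → ∃ m, ξ ∈ F m) ∧ (∀ n, Fx (F n) n (h n)) ∧
      ∀ n s, P n * h n * SA.box (F n) n s ∈ D n := by
  have hst : ∀ (n : ℕ) (l : List (Cnd K)), ∃ h : Cnd K, Pr l ∈ G →
      h ∈ G ∧ Fx (Fl en n l) n h ∧ ∀ s, Pr l * h * SA.box (Fl en n l) n s ∈ D n := by
    intro n l
    by_cases hl : Pr l ∈ G
    · obtain ⟨h, h1, h2, h3⟩ := step bx hG (hd n) (ho n) hl (Fl en n l) n
      exact ⟨h, fun _ => ⟨h1, h2, h3⟩⟩
    · exact ⟨1, fun h => absurd h hl⟩
  choose st hst using hst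
  have hPr : ∀ n, Pr (Ls st n) ∈ G := by
    intro n
    induction n with
    | zero => exact hG.one
    | succ n ih => exact hG.mul _ _ ih (hst n (Ls st n) ih).1
  refine ⟨fun n => st n (Ls st n), fun n => Fl en n (Ls st n), fun n => Pr (Ls st n), rfl,
    fun n => rfl, ?_, ?_, ?_, ?_⟩
  · intro n
    refine (Fl_mono en (Nat.le_succ n) _).trans ?_
    exact Finset.subset_union_right
  · intro n ξ hξ
    obtain ⟨i, hi⟩ := hen _ ξ hξ
    refine ⟨n + i + 1, ?_⟩
    rw [← hi]
    exact mem_Fl en (Ls_mem st n (n + i + 1) (by omega)) (by omega)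
  · intro n
    exact (hst n (Ls st n) (hPr n)).2.1
  · intro n s
    exact (hst n (Ls st n) (hPr n)).2.2 s

end Seq

/-- The fusion lemma. -/
theorem fus (box : G_BOX) : G_FUS := by
  classical
  intro K hK G hG D hd ho
  have hen : ∀ c : Cnd K, ∃ e : ℕ → K, ∀ ξ, c.m ξ ≠ 1 → ∃ i, e i = ξ := by
    intro c
    rcases Set.eq_empty_or_nonempty {ξ | c.m ξ ≠ 1} with he | he
    · refine ⟨fun _ => Classical.arbitrary K, fun ξ hξ => ?_⟩
      have : ξ ∈ {ξ | c.m ξ ≠ 1} := hξ
      rw [he] at this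
      exact absurd this (notMem_empty _)
    · obtain ⟨e, he'⟩ := c.ct.exists_eq_range he
      refine ⟨e, fun ξ hξ => ?_⟩
      have : ξ ∈ {ξ | c.m ξ ≠ 1} := hξ
      rw [he'] at this
      exact this
  choose en hen using hen
  obtain ⟨h, F, P, hP0, hPs, hF, hsup, hfix, hD⟩ := seq en box hG hd ho hen
  have hFm : ∀ n m, n ≤ m → F n ⊆ F m := by
    intro n m hnm
    induction m, hnm using Nat.le_induction with
    | base => exact Finset.Subset.refl _
    | succ m _ ih => exact ih.trans (hF m)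
  have hk : ∀ ξ : K, ∃ k : ℕ → Mp, (∀ m, k m = (h m).m ξ * k (m + 1)) ∧
      (∀ m, ξ ∈ F m → ∀ x, EqB m ((k m).f x) x) ∧ ((∀ m, ξ ∉ F m) → ∀ m, k m = 1) := by
    intro ξ
    by_cases hξ : ∃ m, ξ ∈ F m
    · let N0 := Nat.find hξ
      have hN0 : ξ ∈ F N0 := Nat.find_spec hξ
      obtain ⟨k, h1, h2⟩ := lim1 (fun m => (h m).m ξ) N0
        (fun m hm x => hfix m ξ (hFm N0 m hm hN0) x)
      exact ⟨k, h1, fun m hm => h2 m (Nat.find_min' hξ hm), fun hn => absurd hξ (by
        push Not; exact hn)⟩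
    · push Not at hξ
      refine ⟨fun _ => 1, fun m => ?_, fun m hm => absurd hm (hξ m), fun _ _ => rfl⟩
      by_contra hc
      have : (h m).m ξ ≠ 1 := by
        intro h1
        apply hc
        rw [h1, mul_one]
      obtain ⟨m', hm'⟩ := hsup m ξ this
      exact hξ m' hm'
  choose k hk1 hk2 hk3 using hk
  have hct : ∀ m, {ξ | k ξ m ≠ 1}.Countable := by
    intro m
    refine (Set.countable_iUnion fun n => (F n).countable_toSet).mono ?_
    intro ξ hξ
    by_contra hc
    refine hξ (hk3 ξ (fun n hn => hc ?_) m)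
    exact mem_iUnion.mpr ⟨n, Finset.mem_coe.mpr hn⟩
  let KK : ℕ → Cnd K := fun m => ⟨fun ξ => k ξ m, hct m⟩
  have hKK : ∀ m, KK m = h m * KK (m + 1) := by
    intro m
    refine Cnd.ext ?_
    funext ξ
    exact hk1 ξ m
  have hKf : ∀ n, Fx (F n) n (KK (n + 1)) := by
    intro n ξ hξ x
    exact eqB_mono (Nat.le_succ n) (hk2 ξ (n + 1) (hF n hξ) x)
  have hg : ∀ m, KK 0 = P m * KK m := by
    intro m
    induction m with
    | zero => rw [hP0, one_mul]
    | succ m ih => rw [ih, hPs, hKK m, mul_assoc]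
  refine ⟨KK 0, fun n => ⟨F n, n, fun s => ?_⟩⟩
  obtain ⟨k', hk'⟩ := comm box (hKf n) s
  have e : KK 0 * SA.box (F n) n s = P n * h n * SA.box (F n) n s * k' := by
    rw [hg (n + 1), hPs, mul_assoc (P n * h n), hk', ← mul_assoc]
  rw [e]
  exact ho n _ _ (hD n s)

end SA.PkFUS
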